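import Pool.Agent.helper83.SB.Spec

/-!
# sb:AVG: averages of a monotone function (helper39)
-/

open scoped Pointwise ContDiff
open MeasureTheory Set Filter Topology

set_option linter.unusedVariables false

namespace Pool.Agent.helper83.SB

open Pool.Agent.helper83.SC

theorem AVG_of : AVG_stmt := by
  intro a l hmono hlim
  have hint : ∀ s t : ℝ, 0 ≤ s → s ≤ t → IntegrableOn a (Ioc s t) := by
    intro s t hs hst
    have h1 : MonotoneOn a (Icc s t) := fun x hx y hy hxy => hmono x y (hs.trans hx.1) hxy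
    exact (h1.integrableOn_isCompact isCompact_Icc).mono_set Ioc_subset_Icc_self
  have hup : ∀ s t : ℝ, 0 ≤ s → s ≤ t → ∫ x in Ioc s t, a x ≤ (t - s) * a t := by
    intro s t hs hst
    have h1 : ∫ x in Ioc s t, a x ≤ ∫ x in Ioc s t, a t := by
      refine setIntegral_mono_on (hint s t hs hst) (integrableOn_const (by simp)) measurableSet_Ioc ?_
      intro x hx
      exact hmono x t (hs.trans hx.1.le) hx.2
    rw [setIntegral_const] at h1
    simpa [Measure.real, Real.volume_Ioc, ENNReal.toReal_ofReal (sub_nonneg.2 hst)] using h1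
  have hlo : ∀ s t : ℝ, ∀ c : ℝ, 0 ≤ s → s ≤ t → (∀ x ∈ Ioc s t, c ≤ a x) → (t - s) * c ≤ ∫ x in Ioc s t, a x := by
    intro s t c hs hst hc
    have h1 : ∫ x in Ioc s t, c ≤ ∫ x in Ioc s t, a x :=
      setIntegral_mono_on (integrableOn_const (by simp)) (hint s t hs hst) measurableSet_Ioc hc
    rw [setIntegral_const] at h1
    simpa [Measure.real, Real.volume_Ioc, ENNReal.toReal_ofReal (sub_nonneg.2 hst)] using h1
  refine ⟨?_, ?_⟩
  · intro s t hs hst
    have ht : 0 < t := hs.trans_le hst
    have h1 : ∫ x in Ioc (0 : ℝ) t, a x = (∫ x in Ioc (0 : ℝ) s, a x) + ∫ x in Ioc s t, a x := by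
      rw [← Ioc_union_Ioc_eq_Ioc hs.le hst]
      exact setIntegral_union (Ioc_disjoint_Ioc_of_le le_rfl) measurableSet_Ioc
        (hint 0 s le_rfl hs.le) (hint s t hs.le hst)
    have h2 := hup 0 s le_rfl hs.le
    have h3 := hlo s t (a s) hs.le hst (fun x hx => hmono s x hs.le hx.1.le)
    rw [sub_zero] at h2
    rw [h1, inv_mul_eq_div, inv_mul_eq_div, div_le_div_iff₀ hs ht]
    nlinarith [mul_le_mul_of_nonneg_left h3 hs.le, mul_le_mul_of_nonneg_left h2 (sub_nonneg.2 hst)]
  · have hl : ∀ t : ℝ, 0 < t → l ≤ a t := by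
      intro t ht
      refine le_of_tendsto hlim ?_
      filter_upwards [Ioc_mem_nhdsGT ht] with x hx
      exact hmono x t hx.1.le hx.2
    refine tendsto_of_tendsto_of_tendsto_of_le_of_le' tendsto_const_nhds hlim ?_ ?_
    · filter_upwards [self_mem_nhdsWithin] with s hs
      have hs' : (0 : ℝ) < s := hs
      have h1 := hlo 0 s l le_rfl hs'.le (fun x hx => hl x hx.1)
      rw [sub_zero] at h1
      rw [inv_mul_eq_div, le_div_iff₀ hs', mul_comm]
      exact h1
    · filter_upwards [self_mem_nhdsWithin] with s hs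
      have hs' : (0 : ℝ) < s := hs
      have h1 := hup 0 s le_rfl hs'.le
      rw [sub_zero] at h1
      rw [inv_mul_eq_div, div_le_iff₀ hs', mul_comm]
      exact h1

end Pool.Agent.helper83.SB
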