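import Pool.Agent.helper83.SB.Spec

/-!
# sb:DER: the derivative of the distance along a vertical line (helper39)
-/

open scoped Pointwise ContDiff
open MeasureTheory Set Filter Topology

set_option linter.unusedVariables false

namespace Pool.Agent.helper83.SB

open Pool.Agent.helper83.SC

theorem DER_pt {m : ℕ} (b : OrthonormalBasis (Fin (m + 1)) ℝ (E (m + 1))) (p : E m) (s s' : ℝ) :
    pt b p s' = pt b p s + (s' - s) • b (Fin.last m) := by
  unfold pt
  rw [sub_smul]
  abel

theorem DER_of (hPRJ : PRJ_stmt) : DER_stmt := by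
  intro m b K hK p s hd
  obtain ⟨h1, h2, -, -⟩ := hPRJ hK
  obtain ⟨z, hz⟩ : ∃ z, z = pt b p s := ⟨_, rfl⟩
  rw [← hz] at hd ⊢
  obtain ⟨x, hx⟩ : ∃ x, x = nst K z := ⟨_, rfl⟩
  obtain ⟨hxK, hxd⟩ := h1 z
  have hvar := h2 z
  rw [← hx] at hxK hxd hvar
  obtain ⟨d, hdd⟩ : ∃ d, d = Metric.infDist z K := ⟨_, rfl⟩
  rw [← hdd] at hd hxd
  have hdn : ‖z - x‖ = d := by rw [← dist_eq_norm, hxd]
  have hdir : dir K z = d⁻¹ • (z - x) := by
    unfold dir
    rw [← hx, hdn]
  obtain ⟨ν, hν⟩ : ∃ ν, ν = dir K z := ⟨_, rfl⟩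
  have hν1 : ‖ν‖ = 1 := by
    rw [hν, hdir, norm_smul, norm_inv, Real.norm_of_nonneg hd.le, hdn, inv_mul_cancel₀ hd.ne']
  have hzx : z - x = d • ν := by
    rw [hν, hdir, smul_smul, mul_inv_cancel₀ hd.ne', one_smul]
  obtain ⟨c, hc⟩ : ∃ c : ℝ, c = inner ℝ (b (Fin.last m)) ν := ⟨_, rfl⟩
  have hcoord : (coord b (dir K z)).2 = c := by
    rw [← hν, hc]
    rfl
  rw [hcoord]
  have hb1 : ‖b (Fin.last m)‖ = 1 := b.orthonormal.1 _
  have hc1 : |c| ≤ 1 := by
    rw [hc]
    have := abs_real_inner_le_norm (b (Fin.last m)) ν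
    rwa [hb1, hν1, mul_one] at this
  -- lower bound
  have hlow : ∀ h : ℝ, d + h * c ≤ Metric.infDist (z + h • b (Fin.last m)) K := by
    intro h
    rw [Metric.le_infDist hK.2.2]
    intro y hy
    have e1 : inner ℝ (z + h • b (Fin.last m) - y) ν ≤ ‖z + h • b (Fin.last m) - y‖ := by
      have := real_inner_le_norm (z + h • b (Fin.last m) - y) ν
      rwa [hν1, mul_one] at this
    have e2 : inner ℝ (z - x) (y - x) ≤ 0 := hvar y hy
    rw [hzx, real_inner_smul_left] at e2
    have e3 : inner ℝ ν (y - x) ≤ 0 := by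
      by_contra hcon
      push Not at hcon
      have := mul_pos hd hcon
      linarith
    have e4 : inner ℝ (z + h • b (Fin.last m) - y) ν = d + h * c - inner ℝ ν (y - x) := by
      have e5 : z + h • b (Fin.last m) - y = d • ν + h • b (Fin.last m) - (y - x) := by
        rw [← hzx]; abel
      rw [e5, inner_sub_left, inner_add_left, real_inner_smul_left, real_inner_smul_left,
        real_inner_self_eq_norm_sq, hν1, ← hc, real_inner_comm ν (y - x)]
      ring
    rw [dist_eq_norm]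
    linarith
  -- upper bound
  have hupp : ∀ h : ℝ, |h| < d → Metric.infDist (z + h • b (Fin.last m)) K ≤ d + h * c + h ^ 2 / (2 * d) := by
    intro h hh
    refine (Metric.infDist_le_dist_of_mem hxK).trans ?_
    rw [dist_eq_norm]
    have hpos : 0 ≤ d + h * c + h ^ 2 / (2 * d) := by
      have e1 : |h * c| ≤ |h| := by
        rw [abs_mul]
        exact mul_le_of_le_one_right (abs_nonneg h) hc1
      have e2 := neg_abs_le (h * c)
      have e3 : 0 ≤ h ^ 2 / (2 * d) := by positivity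
      linarith
    refine abs_le_of_sq_le_sq' ?_ hpos |>.2
    have e1 : z + h • b (Fin.last m) - x = d • ν + h • b (Fin.last m) := by
      rw [← hzx]; abel
    rw [e1, ← real_inner_self_eq_norm_sq, inner_add_left, inner_add_right, inner_add_right]
    simp only [real_inner_smul_left, real_inner_smul_right]
    rw [real_inner_self_eq_norm_sq, real_inner_self_eq_norm_sq, hν1, hb1, ← hc,
      real_inner_comm (b (Fin.last m)) ν, ← hc]
    have e2 : h ^ 2 / (2 * d) * d = h ^ 2 / 2 := by field_simp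
    have e3 : (d + h * c + h ^ 2 / (2 * d)) ^ 2 = d ^ 2 + 2 * d * (h * c) + h ^ 2 + (h * c + h ^ 2 / (2 * d)) ^ 2 := by
      have : (d + h * c + h ^ 2 / (2 * d)) ^ 2 = d ^ 2 + 2 * d * (h * c) + 2 * (h ^ 2 / (2 * d) * d) +
        (h * c + h ^ 2 / (2 * d)) ^ 2 := by ring
      rw [this, e2]
      ring
    rw [e3]
    nlinarith [sq_nonneg (h * c + h ^ 2 / (2 * d))]
  rw [hasDerivAt_iff_isLittleO, Asymptotics.isLittleO_iff]
  intro ε hε
  have hnear : ∀ᶠ s' in 𝓝 s, |s' - s| < min d (2 * d * ε) := by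
    have : ∀ᶠ s' in 𝓝 s, dist s' s < min d (2 * d * ε) := Metric.ball_mem_nhds s (lt_min hd (by positivity))
    filter_upwards [this] with s' hs'
    rwa [Real.dist_eq] at hs'
  filter_upwards [hnear] with s' hs'
  have hp : pt b p s' = z + (s' - s) • b (Fin.last m) := by rw [hz]; exact DER_pt b p s s'
  rw [hp, ← hz, ← hdd]
  have e1 := hlow (s' - s)
  have e2 := hupp (s' - s) (hs'.trans_le (min_le_left _ _))
  have e3 : (s' - s) ^ 2 / (2 * d) ≤ ε * |s' - s| := by
    rw [div_le_iff₀ (by positivity), ← sq_abs]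
    have e4 : |s' - s| ≤ 2 * d * ε := (hs'.trans_le (min_le_right _ _)).le
    nlinarith [abs_nonneg (s' - s)]
  rw [Real.norm_eq_abs, Real.norm_eq_abs, smul_eq_mul, abs_of_nonneg (by linarith)]
  linarith

end Pool.Agent.helper83.SB
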