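import Pool.Agent.helper83.SB.Spec

/-!
# sb:MLE: comparison of measures on `E m` (helper39)
-/

open scoped Pointwise ContDiff Manifold
open MeasureTheory Set Filter Topology

set_option linter.unusedVariables false

namespace Pool.Agent.helper83.SB

open Pool.Agent.helper83.SC

theorem MLE_test {m : ℕ} {Z O : Set (E m)} (hZ : IsCompact Z) (hO : IsOpen O) (h : Z ⊆ O) :
    ∃ φ : E m → ℝ, Test φ ∧ (∀ x, φ x ≤ 1) ∧ (∀ x ∈ Z, φ x = 1) ∧ ∀ x, x ∉ O → φ x = 0 := by
  obtain ⟨K, hK, hZK, hKO⟩ := exists_compact_between hZ hO h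
  obtain ⟨f, hf0, hf1, hf⟩ := exists_contMDiffMap_zero_one_of_isClosed (n := (⊤ : ℕ∞)) 𝓘(ℝ, E m)
    (s := (interior K)ᶜ) (t := Z) isOpen_interior.isClosed_compl hZ.isClosed
    (Set.disjoint_left.2 fun x hx hxZ => hx (hZK hxZ))
  have hc : Continuous f := f.contMDiff.continuous
  have hsupp : Function.support f ⊆ K := by
    intro x hx
    by_contra hcon
    exact hx (hf0 (fun h => hcon (interior_subset h)))
  refine ⟨f, ⟨f.contMDiff.contDiff, ?_, fun x => (hf x).1⟩, fun x => (hf x).2, fun x hx => hf1 hx, ?_⟩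
  · exact HasCompactSupport.intro hK fun x hx => by
      by_contra h0
      exact hx (hsupp h0)
  · intro x hx
    exact hf0 (fun h => hx (hKO (interior_subset h)))

theorem MLE_of : MLE_stmt := by
  intro m μ ν hμ hν h
  have key : ∀ Z O : Set (E m), IsCompact Z → IsOpen O → Z ⊆ O → μ Z ≤ ν O := by
    intro Z O hZ hO hZO
    obtain ⟨φ, hφ, hφ1, hφZ, hφO⟩ := MLE_test hZ hO hZO
    have hint : ∀ (ρ : Measure (E m)) [IsFiniteMeasure ρ], Integrable φ ρ := fun ρ _ =>
      hφ.1.continuous.integrable_of_hasCompactSupport hφ.2.1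
    have e1 : μ Z ≤ ENNReal.ofReal (∫ x, φ x ∂μ) := by
      rw [ofReal_integral_eq_lintegral_ofReal (hint μ) (Eventually.of_forall hφ.2.2)]
      calc μ Z = ∫⁻ x in Z, 1 ∂μ := by rw [setLIntegral_one]
        _ ≤ ∫⁻ x in Z, ENNReal.ofReal (φ x) ∂μ := by
            refine setLIntegral_mono' hZ.measurableSet fun x hx => ?_
            rw [hφZ x hx, ENNReal.ofReal_one]
        _ ≤ ∫⁻ x, ENNReal.ofReal (φ x) ∂μ := setLIntegral_le_lintegral _ _
    have e2 : ENNReal.ofReal (∫ x, φ x ∂ν) ≤ ν O := by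
      rw [ofReal_integral_eq_lintegral_ofReal (hint ν) (Eventually.of_forall hφ.2.2)]
      calc ∫⁻ x, ENNReal.ofReal (φ x) ∂ν ≤ ∫⁻ x, O.indicator (fun _ => (1 : ENNReal)) x ∂ν := by
            refine lintegral_mono fun x => ?_
            by_cases hx : x ∈ O
            · rw [Set.indicator_of_mem hx]
              exact ENNReal.ofReal_le_one.2 (hφ1 x)
            · rw [hφO x hx]
              simp
        _ = ν O := by rw [lintegral_indicator_const hO.measurableSet, one_mul]
    exact e1.trans ((ENNReal.ofReal_le_ofReal (h φ hφ)).trans e2)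
  rw [Measure.le_iff]
  intro A hA
  rw [hA.measure_eq_iSup_isCompact_of_ne_top (measure_ne_top μ A), Set.measure_eq_iInf_isOpen A ν]
  refine iSup₂_le fun Z hZA => iSup_le fun hZ => le_iInf₂ fun O hAO => le_iInf fun hO => ?_
  exact key Z O hZ hO (hZA.trans hAO)

end Pool.Agent.helper83.SB
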